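import Pool.Agent.Work.MP_e487d8_al.Alg.Basic

/-! MP_e487d8_al: the convolution product (induction product) of KLR modules. -/

set_option autoImplicit false

open scoped TensorProduct

namespace Pool.Agent.KLR

variable {K I : Type} [Field K] [Fintype I] [DecidableEq I]

section
variable (D : Datum K I) (m : ℕ) {M N P : Type} [AddCommGroup M] [Module K M]
  [Module (KLRAlg D) M] [AddCommGroup N] [Module K N] [Module (KLRAlg D) N]
  [AddCommGroup P] [Module K P] [Module (KLRAlg D) P]

/-- A bilinear map is balanced when the first `m` strands act on the first factor and the strands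
`m, m + 1, ...` act on the second factor. -/
structure Balanced (β : M →ₗ[K] N →ₗ[K] P) : Prop where
  left : ∀ (a : KLRAlg D) (u : M) (v : N), D.tr m a • β u v = β (a • u) v
  right : ∀ (a : KLRAlg D) (u : M) (v : N), D.shn m a • β u v = β u (a • v)

end

section
variable (D : Datum K I) (m : ℕ) (M N : Type) [AddCommGroup M] [Module K M] [Module (KLRAlg D) M]
  [AddCommGroup N] [Module K N] [Module (KLRAlg D) N]

/-- the relations defining the convolution product -/
noncomputable def convRel : Submodule (KLRAlg D) (KLRAlg D ⊗[K] (M ⊗[K] N)) :=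
  Submodule.span (KLRAlg D)
    ({z | ∃ (a : KLRAlg D) (u : M) (v : N), z = D.tr m a ⊗ₜ (u ⊗ₜ v) - 1 ⊗ₜ ((a • u) ⊗ₜ v)} ∪
     {z | ∃ (a : KLRAlg D) (u : M) (v : N), z = D.shn m a ⊗ₜ (u ⊗ₜ v) - 1 ⊗ₜ (u ⊗ₜ (a • v))})

/-- the convolution product `M ∘ N = R(m+n) ⊗_{R(m) ⊗ R(n)} (M ⊗ N)`, where `M` has `m` strands -/
def Conv : Type := (KLRAlg D ⊗[K] (M ⊗[K] N)) ⧸ convRel D m M N

noncomputable instance : AddCommGroup (Conv D m M N) :=
  inferInstanceAs (AddCommGroup ((KLRAlg D ⊗[K] (M ⊗[K] N)) ⧸ convRel D m M N))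
noncomputable instance : Module K (Conv D m M N) :=
  inferInstanceAs (Module K ((KLRAlg D ⊗[K] (M ⊗[K] N)) ⧸ convRel D m M N))
noncomputable instance : Module (KLRAlg D) (Conv D m M N) :=
  inferInstanceAs (Module (KLRAlg D) ((KLRAlg D ⊗[K] (M ⊗[K] N)) ⧸ convRel D m M N))
instance : IsScalarTower K (KLRAlg D) (Conv D m M N) :=
  inferInstanceAs (IsScalarTower K (KLRAlg D) ((KLRAlg D ⊗[K] (M ⊗[K] N)) ⧸ convRel D m M N))

end

namespace Conv

variable {D : Datum K I} {m : ℕ} {M N P : Type} [AddCommGroup M] [Module K M]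
  [Module (KLRAlg D) M] [AddCommGroup N] [Module K N] [Module (KLRAlg D) N]
  [AddCommGroup P] [Module K P] [Module (KLRAlg D) P] [IsScalarTower K (KLRAlg D) P]

variable (D m M N) in
/-- the quotient map -/
noncomputable def quot : (KLRAlg D ⊗[K] (M ⊗[K] N)) →ₗ[KLRAlg D] Conv D m M N :=
  (convRel D m M N).mkQ

variable (D m M N) in
theorem quot_surjective : Function.Surjective (quot D m M N) := Submodule.mkQ_surjective _

variable (D m M N) in
/-- the universal balanced map -/
noncomputable def mk : M →ₗ[K] N →ₗ[K] Conv D m M N :=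
  TensorProduct.curry (((quot D m M N).restrictScalars K).comp
    (TensorProduct.mk K (KLRAlg D) (M ⊗[K] N) 1))

theorem quot_tmul (a : KLRAlg D) (u : M) (v : N) :
    quot D m M N (a ⊗ₜ (u ⊗ₜ v)) = a • mk D m M N u v := by
  have h : (a ⊗ₜ (u ⊗ₜ v) : KLRAlg D ⊗[K] (M ⊗[K] N)) = a • ((1 : KLRAlg D) ⊗ₜ (u ⊗ₜ v)) := by
    rw [TensorProduct.smul_tmul', smul_eq_mul, mul_one]
  rw [h, map_smul]
  rfl

theorem balanced_mk : Balanced D m (mk D m M N) where
  left a u v := by
    rw [← quot_tmul, ← one_smul (KLRAlg D) (mk D m M N (a • u) v), ← quot_tmul, ← sub_eq_zero,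
      ← map_sub]
    exact (Submodule.Quotient.mk_eq_zero _).2 (Submodule.subset_span (Or.inl ⟨a, u, v, rfl⟩))
  right a u v := by
    rw [← quot_tmul, ← one_smul (KLRAlg D) (mk D m M N u (a • v)), ← quot_tmul, ← sub_eq_zero,
      ← map_sub]
    exact (Submodule.Quotient.mk_eq_zero _).2 (Submodule.subset_span (Or.inr ⟨a, u, v, rfl⟩))

theorem tr_smul_mk (a : KLRAlg D) (u : M) (v : N) :
    D.tr m a • mk D m M N u v = mk D m M N (a • u) v := balanced_mk.left a u v
theorem shn_smul_mk (a : KLRAlg D) (u : M) (v : N) :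
    D.shn m a • mk D m M N u v = mk D m M N u (a • v) := balanced_mk.right a u v

/-- the elements `a • mk u v` span the convolution product -/
theorem induction {p : Conv D m M N → Prop} (z : Conv D m M N) (h0 : p 0)
    (h : ∀ (a : KLRAlg D) (u : M) (v : N), p (a • mk D m M N u v))
    (hadd : ∀ y z, p y → p z → p (y + z)) : p z := by
  obtain ⟨z, rfl⟩ := quot_surjective D m M N z
  induction z using TensorProduct.induction_on with
  | zero => rwa [map_zero]
  | tmul a w =>
    induction w using TensorProduct.induction_on with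
    | zero => rwa [TensorProduct.tmul_zero, map_zero]
    | tmul u v => rw [quot_tmul]; exact h a u v
    | add w w' hw hw' => rw [TensorProduct.tmul_add, map_add]; exact hadd _ _ hw hw'
  | add w w' hw hw' => rw [map_add]; exact hadd _ _ hw hw'

omit [Module K P] [IsScalarTower K (KLRAlg D) P] in
theorem hom_ext {f g : Conv D m M N →ₗ[KLRAlg D] P}
    (h : ∀ u v, f (mk D m M N u v) = g (mk D m M N u v)) : f = g := by
  ext z
  induction z using Conv.induction with
  | h0 => simp
  | h a u v => rw [map_smul, map_smul, h]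
  | hadd y z hy hz => rw [map_add, map_add, hy, hz]

/-- auxiliary map -/
noncomputable def liftAux (β : M →ₗ[K] N →ₗ[K] P) :
    (KLRAlg D ⊗[K] (M ⊗[K] N)) →ₗ[KLRAlg D] P :=
  TensorProduct.AlgebraTensorModule.lift
    (LinearMap.toSpanSingleton (KLRAlg D) ((M ⊗[K] N) →ₗ[K] P) (TensorProduct.lift β))

omit [Module (KLRAlg D) M] [Module (KLRAlg D) N] in
theorem liftAux_tmul (β : M →ₗ[K] N →ₗ[K] P) (a : KLRAlg D) (u : M) (v : N) :
    liftAux β (a ⊗ₜ (u ⊗ₜ v)) = a • β u v := by
  simp [liftAux]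

/-- universal property of the convolution product -/
noncomputable def lift (β : M →ₗ[K] N →ₗ[K] P) (hβ : Balanced D m β) :
    Conv D m M N →ₗ[KLRAlg D] P :=
  Submodule.liftQ _ (liftAux β) (by
    rw [convRel, Submodule.span_le]
    rintro z (⟨a, u, v, rfl⟩ | ⟨a, u, v, rfl⟩)
    · simp [liftAux_tmul, hβ.left]
    · simp [liftAux_tmul, hβ.right])

@[simp] theorem lift_mk (β : M →ₗ[K] N →ₗ[K] P) (hβ : Balanced D m β) (u : M) (v : N) :
    lift β hβ (mk D m M N u v) = β u v := by
  have h : lift β hβ (quot D m M N (1 ⊗ₜ (u ⊗ₜ v))) = liftAux β (1 ⊗ₜ (u ⊗ₜ v)) :=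
    Submodule.liftQ_apply _ _ _
  rw [quot_tmul, liftAux_tmul, one_smul, one_smul] at h
  exact h

end Conv

end Pool.Agent.KLR
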