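import Pool.Agent.Work.MP_e487d8_al.Conv.Api

/-! MP_e487d8_al: associativity of the convolution product. -/

set_option autoImplicit false

open scoped TensorProduct

namespace Pool.Agent.KLR

variable {K I : Type} [Field K] [Fintype I] [DecidableEq I] {D : Datum K I}

namespace Conv

variable {m n : ℕ} {M N L : Type}
  [AddCommGroup M] [Module K M] [Module (KLRAlg D) M] [IsScalarTower K (KLRAlg D) M]
  [AddCommGroup N] [Module K N] [Module (KLRAlg D) N] [IsScalarTower K (KLRAlg D) N]
  [AddCommGroup L] [Module K L] [Module (KLRAlg D) L] [IsScalarTower K (KLRAlg D) L]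

section forward

/-- auxiliary: for `w` fixed, `mk u v ↦ mk u (mk v w)` -/
noncomputable def fwd (m n : ℕ) (w : L) :
    Conv D m M N →ₗ[KLRAlg D] Tw (D.tr (m + n)) (Conv D m M (Conv D n N L)) :=
  lift (LinearMap.mk₂ K
    (fun (u : M) (v : N) => Tw.mk (D.tr (m + n)) (mk D m M (Conv D n N L) u (mk D n N L v w)))
    (by intro u u' v; rw [map_add, LinearMap.add_apply, map_add])
    (by intro r u v; rw [map_smul, LinearMap.smul_apply, map_smul])
    (by intro u v v'; rw [map_add (mk D n N L), LinearMap.add_apply, map_add, map_add])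
    (by intro r u v; rw [map_smul (mk D n N L), LinearMap.smul_apply, map_smul, map_smul]))
    { left := fun a u v => by
        simp only [LinearMap.mk₂_apply]
        rw [Tw.smul_mk, D.tr_tr (Nat.le_add_right m n), tr_smul_mk]
      right := fun a u v => by
        simp only [LinearMap.mk₂_apply]
        rw [Tw.smul_mk, D.tr_shn, shn_smul_mk, tr_smul_mk] }

theorem fwd_mk (w : L) (u : M) (v : N) :
    fwd m n w (mk D m M N u v) =
      Tw.mk (D.tr (m + n)) (mk D m M (Conv D n N L) u (mk D n N L v w)) := by
  unfold fwd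
  rw [lift_mk]
  rfl

theorem fwd_add (w w' : L) (z : Conv D m M N) :
    fwd m n (w + w') z = fwd m n w z + fwd m n w' z := by
  have h : fwd (D := D) (M := M) (N := N) m n (w + w') = fwd m n w + fwd m n w' := by
    apply hom_ext
    intro u v
    rw [LinearMap.add_apply, fwd_mk, fwd_mk, fwd_mk, map_add (mk D n N L v),
      map_add, map_add]
  rw [h]
  rfl

theorem fwd_smul (r : K) (w : L) (z : Conv D m M N) :
    fwd m n (r • w) z = r • fwd m n w z := by
  induction z using Conv.induction with
  | h0 => rw [map_zero, map_zero, smul_zero]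
  | hadd y z hy hz => rw [map_add, map_add, hy, hz, smul_add]
  | h a u v =>
    rw [map_smul, map_smul, fwd_mk, fwd_mk, map_smul (mk D n N L v), map_smul, map_smul,
      smul_comm]

/-- auxiliary bilinear map -/
noncomputable def fwd2 (m n : ℕ) : Conv D m M N →ₗ[K] L →ₗ[K] Conv D m M (Conv D n N L) :=
  LinearMap.mk₂ K (fun z w => (Tw.mk (D.tr (m + n))).symm (fwd m n w z))
    (by intro z z' w; rw [map_add, map_add])
    (by
      intro r z w
      rw [← algebraMap_smul (KLRAlg D) r z, map_smul, algebraMap_smul, map_smul])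
    (by intro z w w'; rw [fwd_add, map_add])
    (by intro r z w; rw [fwd_smul, map_smul])

theorem fwd2_mk (u : M) (v : N) (w : L) :
    fwd2 m n (mk D m M N u v) w = mk D m M (Conv D n N L) u (mk D n N L v w) := by
  unfold fwd2
  rw [LinearMap.mk₂_apply, fwd_mk]
  rfl

theorem fwd2_smul (a : KLRAlg D) (z : Conv D m M N) (w : L) :
    fwd2 m n (a • z) w = D.tr (m + n) a • fwd2 m n z w := by
  unfold fwd2
  rw [LinearMap.mk₂_apply, LinearMap.mk₂_apply, map_smul]
  rfl

theorem balanced_fwd2 : Balanced D (m + n) (fwd2 (D := D) (M := M) (N := N) (L := L) m n) where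
  left a z w := (fwd2_smul a z w).symm
  right a z w := by
    induction z using Conv.induction with
    | h0 => simp
    | hadd y z hy hz => rw [map_add, LinearMap.add_apply, LinearMap.add_apply, smul_add, hy, hz]
    | h b u v =>
      rw [fwd2_smul, fwd2_smul, ← mul_smul, ← D.tr_mul_shn le_rfl, mul_smul, fwd2_mk, fwd2_mk,
        ← D.shn_shn, shn_smul_mk, shn_smul_mk]

/-- `(M ∘ N) ∘ L → M ∘ (N ∘ L)` -/
noncomputable def assocHom (D : Datum K I) (m n : ℕ) (M N L : Type)
    [AddCommGroup M] [Module K M] [Module (KLRAlg D) M] [IsScalarTower K (KLRAlg D) M]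
    [AddCommGroup N] [Module K N] [Module (KLRAlg D) N] [IsScalarTower K (KLRAlg D) N]
    [AddCommGroup L] [Module K L] [Module (KLRAlg D) L] [IsScalarTower K (KLRAlg D) L] :
    Conv D (m + n) (Conv D m M N) L →ₗ[KLRAlg D] Conv D m M (Conv D n N L) :=
  lift (fwd2 m n) balanced_fwd2

theorem assocHom_mk (u : M) (v : N) (w : L) :
    assocHom D m n M N L (mk D (m + n) (Conv D m M N) L (mk D m M N u v) w) =
      mk D m M (Conv D n N L) u (mk D n N L v w) := by
  unfold assocHom
  rw [lift_mk, fwd2_mk]

end forward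

section backward

/-- auxiliary: for `u` fixed, `mk v w ↦ mk (mk u v) w` -/
noncomputable def bwd (m n : ℕ) (u : M) :
    Conv D n N L →ₗ[KLRAlg D] Tw (D.shn m) (Conv D (m + n) (Conv D m M N) L) :=
  lift (LinearMap.mk₂ K
    (fun (v : N) (w : L) => Tw.mk (D.shn m) (mk D (m + n) (Conv D m M N) L (mk D m M N u v) w))
    (by intro u u' v; rw [map_add, map_add, LinearMap.add_apply, map_add])
    (by intro r u v; rw [map_smul, map_smul, LinearMap.smul_apply, map_smul])
    (by intro u v v'; rw [map_add, map_add])
    (by intro r u v; rw [map_smul, map_smul]))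
    { left := fun a v w => by
        simp only [LinearMap.mk₂_apply]
        rw [Tw.smul_mk, ← D.tr_shn, tr_smul_mk, shn_smul_mk]
      right := fun a v w => by
        simp only [LinearMap.mk₂_apply]
        rw [Tw.smul_mk, D.shn_shn, shn_smul_mk] }

theorem bwd_mk (u : M) (v : N) (w : L) :
    bwd m n u (mk D n N L v w) =
      Tw.mk (D.shn m) (mk D (m + n) (Conv D m M N) L (mk D m M N u v) w) := by
  unfold bwd
  rw [lift_mk]
  rfl

theorem bwd_add (u u' : M) (z : Conv D n N L) :
    bwd (N := N) m n (u + u') z = bwd m n u z + bwd m n u' z := by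
  have h : bwd (D := D) (N := N) (L := L) m n (u + u') = bwd m n u + bwd m n u' := by
    apply hom_ext
    intro v w
    rw [LinearMap.add_apply, bwd_mk, bwd_mk, bwd_mk, map_add (mk D m M N), LinearMap.add_apply,
      map_add (mk D (m + n) (Conv D m M N) L), LinearMap.add_apply, map_add]
  rw [h]
  rfl

theorem bwd_smul (r : K) (u : M) (z : Conv D n N L) :
    bwd (N := N) m n (r • u) z = r • bwd m n u z := by
  induction z using Conv.induction with
  | h0 => rw [map_zero, map_zero, smul_zero]
  | hadd y z hy hz => rw [map_add, map_add, hy, hz, smul_add]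
  | h a v w =>
    rw [map_smul, map_smul, bwd_mk, bwd_mk, map_smul (mk D m M N), LinearMap.smul_apply,
      map_smul (mk D (m + n) (Conv D m M N) L), LinearMap.smul_apply, map_smul,
      smul_comm]

/-- auxiliary bilinear map -/
noncomputable def bwd2 (m n : ℕ) : M →ₗ[K] Conv D n N L →ₗ[K] Conv D (m + n) (Conv D m M N) L :=
  LinearMap.mk₂ K (fun u z => (Tw.mk (D.shn m)).symm (bwd m n u z))
    (by intro u u' z; rw [bwd_add, map_add])
    (by intro r u z; rw [bwd_smul, map_smul])
    (by intro u z z'; rw [map_add, map_add])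
    (by
      intro r u z
      rw [← algebraMap_smul (KLRAlg D) r z, map_smul, algebraMap_smul, map_smul])

theorem bwd2_mk (u : M) (v : N) (w : L) :
    bwd2 m n u (mk D n N L v w) = mk D (m + n) (Conv D m M N) L (mk D m M N u v) w := by
  unfold bwd2
  rw [LinearMap.mk₂_apply, bwd_mk]
  rfl

theorem bwd2_smul (a : KLRAlg D) (u : M) (z : Conv D n N L) :
    bwd2 (N := N) m n u (a • z) = D.shn m a • bwd2 m n u z := by
  unfold bwd2
  rw [LinearMap.mk₂_apply, LinearMap.mk₂_apply, map_smul]
  rfl

theorem balanced_bwd2 : Balanced D m (bwd2 (D := D) (M := M) (N := N) (L := L) m n) where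
  right a u z := (bwd2_smul a u z).symm
  left a u z := by
    induction z using Conv.induction with
    | h0 => simp
    | hadd y z hy hz => rw [map_add, map_add, smul_add, hy, hz]
    | h b v w =>
      rw [bwd2_smul, bwd2_smul, ← mul_smul, D.tr_mul_shn le_rfl, mul_smul, bwd2_mk, bwd2_mk,
        ← D.tr_tr (Nat.le_add_right m n), tr_smul_mk, tr_smul_mk]

/-- `M ∘ (N ∘ L) → (M ∘ N) ∘ L` -/
noncomputable def assocInv (D : Datum K I) (m n : ℕ) (M N L : Type)
    [AddCommGroup M] [Module K M] [Module (KLRAlg D) M] [IsScalarTower K (KLRAlg D) M]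
    [AddCommGroup N] [Module K N] [Module (KLRAlg D) N] [IsScalarTower K (KLRAlg D) N]
    [AddCommGroup L] [Module K L] [Module (KLRAlg D) L] [IsScalarTower K (KLRAlg D) L] :
    Conv D m M (Conv D n N L) →ₗ[KLRAlg D] Conv D (m + n) (Conv D m M N) L :=
  lift (bwd2 m n) balanced_bwd2

theorem assocInv_mk (u : M) (v : N) (w : L) :
    assocInv D m n M N L (mk D m M (Conv D n N L) u (mk D n N L v w)) =
      mk D (m + n) (Conv D m M N) L (mk D m M N u v) w := by
  unfold assocInv
  rw [lift_mk, bwd2_mk]

end backward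

omit [IsScalarTower K (KLRAlg D) M] [IsScalarTower K (KLRAlg D) N]
  [IsScalarTower K (KLRAlg D) L] in
/-- two linear maps on `(M ∘ N) ∘ L` which agree on the elements `mk (mk u v) w` are equal -/
theorem hom_ext₃ {P : Type} [AddCommGroup P] [Module (KLRAlg D) P]
    {f g : Conv D (m + n) (Conv D m M N) L →ₗ[KLRAlg D] P}
    (h : ∀ u v w, f (mk D (m + n) (Conv D m M N) L (mk D m M N u v) w) =
      g (mk D (m + n) (Conv D m M N) L (mk D m M N u v) w)) : f = g := by
  apply hom_ext
  intro z w
  induction z using Conv.induction with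
  | h0 => simp
  | hadd y z hy hz => rw [map_add, LinearMap.add_apply, map_add, map_add, hy, hz]
  | h a u v => rw [← tr_smul_mk, map_smul, map_smul, h]

omit [IsScalarTower K (KLRAlg D) M] [IsScalarTower K (KLRAlg D) N]
  [IsScalarTower K (KLRAlg D) L] in
/-- two linear maps on `M ∘ (N ∘ L)` which agree on the elements `mk u (mk v w)` are equal -/
theorem hom_ext₃' {P : Type} [AddCommGroup P] [Module (KLRAlg D) P]
    {f g : Conv D m M (Conv D n N L) →ₗ[KLRAlg D] P}
    (h : ∀ u v w, f (mk D m M (Conv D n N L) u (mk D n N L v w)) =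
      g (mk D m M (Conv D n N L) u (mk D n N L v w))) : f = g := by
  apply hom_ext
  intro u z
  induction z using Conv.induction with
  | h0 => simp
  | hadd y z hy hz => rw [map_add, map_add, map_add, hy, hz]
  | h a v w => rw [← shn_smul_mk, map_smul, map_smul, h]

/-- associativity of the convolution product -/
noncomputable def assoc (D : Datum K I) (m n : ℕ) (M N L : Type)
    [AddCommGroup M] [Module K M] [Module (KLRAlg D) M] [IsScalarTower K (KLRAlg D) M]
    [AddCommGroup N] [Module K N] [Module (KLRAlg D) N] [IsScalarTower K (KLRAlg D) N]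
    [AddCommGroup L] [Module K L] [Module (KLRAlg D) L] [IsScalarTower K (KLRAlg D) L] :
    Conv D (m + n) (Conv D m M N) L ≃ₗ[KLRAlg D] Conv D m M (Conv D n N L) :=
  LinearEquiv.ofLinearMap (assocHom D m n M N L) (assocInv D m n M N L)
    (hom_ext₃' fun u v w => by
      rw [LinearMap.comp_apply, assocInv_mk, assocHom_mk, LinearMap.id_apply])
    (hom_ext₃ fun u v w => by
      rw [LinearMap.comp_apply, assocHom_mk, assocInv_mk, LinearMap.id_apply])

@[simp] theorem assoc_mk (u : M) (v : N) (w : L) :
    assoc D m n M N L (mk D (m + n) (Conv D m M N) L (mk D m M N u v) w) =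
      mk D m M (Conv D n N L) u (mk D n N L v w) := assocHom_mk u v w

@[simp] theorem assoc_symm_mk (u : M) (v : N) (w : L) :
    (assoc D m n M N L).symm (mk D m M (Conv D n N L) u (mk D n N L v w)) =
      mk D (m + n) (Conv D m M N) L (mk D m M N u v) w := assocInv_mk u v w

end Conv

end Pool.Agent.KLR
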