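import Pool.Agent.Work.MP_e487d8_al.Conv.K0

/-! MP_e487d8_al: finite dimension of convolution products. -/

set_option autoImplicit false

open scoped TensorProduct

namespace Pool.Agent.KLR

variable {K I : Type} [Field K] [Fintype I] [DecidableEq I] {D : Datum K I}

/-- `Shf m n` as a finite type -/
noncomputable instance (m n : ℕ) : Fintype (Shf m n) := by
  classical
  refine Fintype.ofInjective (β := List.Vector Bool (m + n))
    (fun w : Shf m n => (⟨w.1, w.length_eq⟩ : List.Vector Bool (m + n))) ?_
  intro w w' h
  exact Subtype.ext (congrArg List.Vector.toList h)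

/-- the trivial shuffle -/
def Shf.one (m n : ℕ) : Shf m n :=
  ⟨List.replicate m false ++ List.replicate n true, by
    rw [List.count_append, List.count_append]
    simp [List.count_replicate]⟩

theorem Datum.tw_one (D : Datum K I) (m n : ℕ) : D.tw (Shf.one m n).1 = 1 := by
  change D.tw (List.replicate m false ++ List.replicate n true) = 1
  rw [D.tw_append_true]
  have h := D.tw_false_append [] m
  rw [List.append_nil] at h
  rw [h, Datum.tw, map_one]

/-- removing the first letter -/
theorem Shf.card_succ (m n : ℕ) : Fintype.card (Shf (m + 1) (n + 1)) =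
    Fintype.card (Shf m (n + 1)) + Fintype.card (Shf (m + 1) n) := by
  rw [← Fintype.card_sum]
  symm
  apply Fintype.card_of_bijective (f := fun z : Shf m (n + 1) ⊕ Shf (m + 1) n =>
    (match z with
    | Sum.inl w => ⟨false :: w.1, by
        rw [List.count_cons_self, List.count_cons_of_ne (by decide), w.2.1, w.2.2]; exact ⟨rfl, rfl⟩⟩
    | Sum.inr w => ⟨true :: w.1, by
        rw [List.count_cons_self, List.count_cons_of_ne (by decide), w.2.1, w.2.2]; exact ⟨rfl, rfl⟩⟩ :
      Shf (m + 1) (n + 1)))
  constructor
  · rintro (⟨w, hw⟩ | ⟨w, hw⟩) (⟨w', hw'⟩ | ⟨w', hw'⟩) h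
    · have h1 := congrArg Subtype.val h
      simp only [List.cons.injEq, true_and] at h1
      subst h1; rfl
    · have h1 := congrArg Subtype.val h
      simp at h1
    · have h1 := congrArg Subtype.val h
      simp at h1
    · have h1 := congrArg Subtype.val h
      simp only [List.cons.injEq, true_and] at h1
      subst h1; rfl
  · rintro ⟨w, hw⟩
    cases w with
    | nil => simp at hw
    | cons b w =>
      cases b with
      | false =>
        rw [List.count_cons_self, List.count_cons_of_ne (by decide)] at hw
        exact ⟨Sum.inl ⟨w, by omega⟩, rfl⟩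
      | true =>
        rw [List.count_cons_self, List.count_cons_of_ne (by decide)] at hw
        exact ⟨Sum.inr ⟨w, by omega⟩, rfl⟩

theorem Shf.card_zero_left (n : ℕ) : Fintype.card (Shf 0 n) = 1 := by
  rw [Fintype.card_eq_one_iff]
  refine ⟨Shf.one 0 n, ?_⟩
  rintro ⟨w, hw⟩
  apply Subtype.ext
  change w = List.replicate 0 false ++ List.replicate n true
  rw [List.replicate_zero, List.nil_append]
  rw [List.eq_replicate_iff]
  refine ⟨by rw [length_eq_count, hw.1, hw.2, zero_add], ?_⟩
  intro b hb
  cases b with
  | true => rfl
  | false => exact absurd hb (List.count_eq_zero.1 hw.1)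

theorem Shf.card_zero_right (m : ℕ) : Fintype.card (Shf m 0) = 1 := by
  rw [Fintype.card_eq_one_iff]
  refine ⟨Shf.one m 0, ?_⟩
  rintro ⟨w, hw⟩
  apply Subtype.ext
  change w = List.replicate m false ++ List.replicate 0 true
  rw [List.replicate_zero, List.append_nil]
  rw [List.eq_replicate_iff]
  refine ⟨by rw [length_eq_count, hw.1, hw.2, add_zero], ?_⟩
  intro b hb
  cases b with
  | false => rfl
  | true => exact absurd hb (List.count_eq_zero.1 hw.2)

theorem Shf.card (m n : ℕ) : Fintype.card (Shf m n) = (m + n).choose m := by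
  induction m generalizing n with
  | zero => rw [Shf.card_zero_left, Nat.choose_zero_right]
  | succ m ihm =>
    induction n with
    | zero => rw [Shf.card_zero_right, Nat.add_zero, Nat.choose_self]
    | succ n ihn =>
      rw [Shf.card_succ, ihm, ihn, show m + 1 + (n + 1) = (m + (n + 1)) + 1 by ring,
        Nat.choose_succ_succ, show m + 1 + n = m + (n + 1) by ring]

namespace Conv

variable {m l n : ℕ} {M N L : Type}
  [AddCommGroup M] [Module K M] [Module (KLRAlg D) M] [IsScalarTower K (KLRAlg D) M]
  [AddCommGroup N] [Module K N] [Module (KLRAlg D) N] [IsScalarTower K (KLRAlg D) N]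

theorem finiteDimensional (hb : S_basis D) (hM : IsStrand D m M) (hN : IsStrand D n N)
    [FiniteDimensional K M] [FiniteDimensional K N] : FiniteDimensional K (Conv D m M N) :=
  Module.Finite.of_surjective (convSum D m n M N) (hb m n M N hM hN).2

theorem finrank (hb : S_basis D) (hM : IsStrand D m M) (hN : IsStrand D n N)
    [FiniteDimensional K M] [FiniteDimensional K N] :
    Module.finrank K (Conv D m M N) =
      (m + n).choose m * (Module.finrank K M * Module.finrank K N) := by
  rw [← (LinearEquiv.ofBijective (convSum D m n M N) (hb m n M N hM hN)).finrank_eq,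
    Module.finrank_finsupp, Shf.card, Module.finrank_tensorProduct]

theorem mk_eq_zero (hb : S_basis D) (hM : IsStrand D m M) (hN : IsStrand D n N) {u : M} {v : N}
    (h : mk D m M N u v = 0) : u = 0 ∨ v = 0 := by
  have h1 : convSum D m n M N (Finsupp.single (Shf.one m n) (u ⊗ₜ v)) = 0 := by
    rw [convSum_single, D.tw_one, one_smul, h]
  have h2 := (hb m n M N hM hN).1 (h1.trans (map_zero _).symm)
  rw [Finsupp.single_eq_zero] at h2
  by_contra h3
  push Not at h3
  apply h3.2
  obtain ⟨f, hf⟩ : ∃ f : Module.Dual K M, f u ≠ 0 := by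
    by_contra h4
    push Not at h4
    exact h3.1 ((Module.forall_dual_apply_eq_zero_iff K u).1 h4)
  have h5 := congrArg (fun z => TensorProduct.lid K N (f.rTensor N z)) h2
  simp only [LinearMap.rTensor_tmul, TensorProduct.lid_tmul, map_zero] at h5
  exact (smul_eq_zero.1 h5).resolve_left hf

end Conv

end Pool.Agent.KLR
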