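import Pool.Agent.Work.MP_e487d8_al.Conv.Exact

/-! MP_e487d8_al: submodules of convolution products, the lemma K0 and its mirror. -/

set_option autoImplicit false

open scoped TensorProduct

namespace Pool.Agent.KLR

variable {K I : Type} [Field K] [Fintype I] [DecidableEq I] {D : Datum K I}

theorem IsStrand.sub {n : ℕ} {M : Type} [AddCommGroup M] [Module (KLRAlg D) M]
    (h : IsStrand D n M) (S : Submodule (KLRAlg D) M) : IsStrand D n S where
  one k hk u := Subtype.ext (h.one k hk u)
  zero k hk i u := Subtype.ext (h.zero k hk i u)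

theorem IsStrand.of_injective {n : ℕ} {M N : Type} [AddCommGroup M] [Module (KLRAlg D) M]
    [AddCommGroup N] [Module (KLRAlg D) N] (h : IsStrand D n N) (f : M →ₗ[KLRAlg D] N)
    (hf : Function.Injective f) : IsStrand D n M where
  one k hk u := hf (by rw [map_smul, h.one k hk])
  zero k hk i u := hf (by rw [map_smul, h.zero k hk, map_zero])

theorem IsStrand.of_surjective {n : ℕ} {M N : Type} [AddCommGroup M] [Module (KLRAlg D) M]
    [AddCommGroup N] [Module (KLRAlg D) N] (h : IsStrand D n M) (f : M →ₗ[KLRAlg D] N)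
    (hf : Function.Surjective f) : IsStrand D n N where
  one k hk u := by
    obtain ⟨u, rfl⟩ := hf u
    rw [← map_smul, h.one k hk]
  zero k hk i u := by
    obtain ⟨u, rfl⟩ := hf u
    rw [← map_smul, h.zero k hk, map_zero]

theorem IsStrand.quot {n : ℕ} {M : Type} [AddCommGroup M] [Module (KLRAlg D) M]
    (h : IsStrand D n M) (S : Submodule (KLRAlg D) M) : IsStrand D n (M ⧸ S) :=
  h.of_surjective S.mkQ S.mkQ_surjective

namespace Conv

variable {m m' n n' l : ℕ} {M M' M'' N N' N'' L : Type}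
  [AddCommGroup M] [Module K M] [Module (KLRAlg D) M] [IsScalarTower K (KLRAlg D) M]
  [AddCommGroup N] [Module K N] [Module (KLRAlg D) N] [IsScalarTower K (KLRAlg D) N]
  [AddCommGroup M'] [Module K M'] [Module (KLRAlg D) M'] [IsScalarTower K (KLRAlg D) M']
  [AddCommGroup N'] [Module K N'] [Module (KLRAlg D) N'] [IsScalarTower K (KLRAlg D) N']
  [AddCommGroup L] [Module K L] [Module (KLRAlg D) L] [IsScalarTower K (KLRAlg D) L]

/-- the submodule `S ∘ N` of `M ∘ N` -/
noncomputable def subL (m : ℕ) (S : Submodule (KLRAlg D) M) (N : Type) [AddCommGroup N]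
    [Module K N] [Module (KLRAlg D) N] [IsScalarTower K (KLRAlg D) N] :
    Submodule (KLRAlg D) (Conv D m M N) :=
  Submodule.span (KLRAlg D) {z | ∃ (u : S) (v : N), z = mk D m M N u v}

/-- the submodule `M ∘ S` of `M ∘ N` -/
noncomputable def subR (m : ℕ) (M : Type) [AddCommGroup M]
    [Module K M] [Module (KLRAlg D) M] [IsScalarTower K (KLRAlg D) M]
    (S : Submodule (KLRAlg D) N) : Submodule (KLRAlg D) (Conv D m M N) :=
  Submodule.span (KLRAlg D) {z | ∃ (u : M) (v : S), z = mk D m M N u v}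

theorem subL_eq_range (S : Submodule (KLRAlg D) M) :
    subL m S N = LinearMap.range (map (rfl : m = m) S.subtype
      (LinearMap.id : N →ₗ[KLRAlg D] N)) := by
  apply le_antisymm
  · rw [subL, Submodule.span_le]
    rintro z ⟨u, v, rfl⟩
    exact ⟨mk D m S N u v, by simp⟩
  · rintro z ⟨y, rfl⟩
    induction y using Conv.induction with
    | h0 => rw [map_zero]; exact Submodule.zero_mem _
    | hadd y z hy hz => rw [map_add]; exact Submodule.add_mem _ hy hz
    | h a u v =>
      rw [map_smul, map_mk]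
      exact Submodule.smul_mem _ _ (Submodule.subset_span ⟨u, v, rfl⟩)

theorem subR_eq_range (S : Submodule (KLRAlg D) N) :
    subR m M S = LinearMap.range (map (rfl : m = m) (LinearMap.id : M →ₗ[KLRAlg D] M)
      S.subtype) := by
  apply le_antisymm
  · rw [subR, Submodule.span_le]
    rintro z ⟨u, v, rfl⟩
    exact ⟨mk D m M S u v, by simp⟩
  · rintro z ⟨y, rfl⟩
    induction y using Conv.induction with
    | h0 => rw [map_zero]; exact Submodule.zero_mem _
    | hadd y z hy hz => rw [map_add]; exact Submodule.add_mem _ hy hz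
    | h a u v =>
      rw [map_smul, map_mk]
      exact Submodule.smul_mem _ _ (Submodule.subset_span ⟨u, v, rfl⟩)

theorem mk_mem_subL {S : Submodule (KLRAlg D) M} {u : M} (hu : u ∈ S) (v : N) :
    mk D m M N u v ∈ subL m S N := Submodule.subset_span ⟨⟨u, hu⟩, v, rfl⟩

theorem mk_mem_subR {S : Submodule (KLRAlg D) N} (u : M) {v : N} (hv : v ∈ S) :
    mk D m M N u v ∈ subR m M S := Submodule.subset_span ⟨u, ⟨v, hv⟩, rfl⟩

theorem ker_map_right (hb : S_basis D) (hM : IsStrand D m M) (hN : IsStrand D n N)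
    (hN' : IsStrand D n N') (g : N →ₗ[KLRAlg D] N') :
    LinearMap.ker (map (rfl : m = m) (LinearMap.id : M →ₗ[KLRAlg D] M) g) =
      subR m M (LinearMap.ker g) := by
  rw [subR_eq_range]
  have h : Function.Exact (LinearMap.ker g).subtype g := by
    intro z
    rw [Submodule.coe_subtype, Subtype.range_coe]
    rfl
  exact LinearMap.exact_iff.1 (exact_right hb hM (hN.sub _) hN hN' _ _ h)

theorem ker_map_left (hb : S_basis D) (hN : IsStrand D n N) (hM : IsStrand D m M)
    (hM' : IsStrand D m M') (g : M →ₗ[KLRAlg D] M') :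
    LinearMap.ker (map (rfl : m = m) g (LinearMap.id : N →ₗ[KLRAlg D] N)) =
      subL m (LinearMap.ker g) N := by
  rw [subL_eq_range]
  have h : Function.Exact (LinearMap.ker g).subtype g := by
    intro z
    rw [Submodule.coe_subtype, Subtype.range_coe]
    rfl
  exact LinearMap.exact_iff.1 (exact_left hb hN (hM.sub _) hM hM' _ _ h)

/-- `(f ∘ N)⁻¹ (S ∘ N) = f⁻¹ S ∘ N` -/
theorem comap_subL (hb : S_basis D) (hN : IsStrand D n N) (hM : IsStrand D m M)
    (hM' : IsStrand D m M') (f : M →ₗ[KLRAlg D] M') (S : Submodule (KLRAlg D) M') :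
    (subL m S N).comap (map (rfl : m = m) f (LinearMap.id : N →ₗ[KLRAlg D] N)) =
      subL m (S.comap f) N := by
  have h1 : subL m S N = LinearMap.ker (map (rfl : m = m) S.mkQ
      (LinearMap.id : N →ₗ[KLRAlg D] N)) := by
    rw [ker_map_left hb hN hM' (hM'.quot S), Submodule.ker_mkQ]
  have h2 : S.comap f = LinearMap.ker (S.mkQ.comp f) := by
    rw [LinearMap.ker_comp, Submodule.ker_mkQ]
  rw [h1, h2, ← ker_map_left hb hN hM (hM'.quot S), ← LinearMap.ker_comp, map_comp]
  rfl

/-- `(M ∘ f)⁻¹ (M ∘ S) = M ∘ f⁻¹ S` -/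
theorem comap_subR (hb : S_basis D) (hM : IsStrand D m M) (hN : IsStrand D n N)
    (hN' : IsStrand D n N') (f : N →ₗ[KLRAlg D] N') (S : Submodule (KLRAlg D) N') :
    (subR m M S).comap (map (rfl : m = m) (LinearMap.id : M →ₗ[KLRAlg D] M) f) =
      subR m M (S.comap f) := by
  have h1 : subR m M S = LinearMap.ker (map (rfl : m = m) (LinearMap.id : M →ₗ[KLRAlg D] M)
      S.mkQ) := by
    rw [ker_map_right hb hM hN' (hN'.quot S), Submodule.ker_mkQ]
  have h2 : S.comap f = LinearMap.ker (S.mkQ.comp f) := by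
    rw [LinearMap.ker_comp, Submodule.ker_mkQ]
  rw [h1, h2, ← ker_map_right hb hM hN (hN'.quot S), ← LinearMap.ker_comp, map_comp]
  rfl

end Conv

end Pool.Agent.KLR
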