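import Pool.Agent.Work.MP_e487d8_al.Alg.Mir
import Pool.Agent.Work.MP_e487d8_al.Mod.Word
import Pool.Agent.Work.MP_e487d8_al.Conv.KZ

/-! MP_e487d8_al: mirrored modules, `(M ∘ N)^mir = N^mir ∘ M^mir`. -/

set_option autoImplicit false

namespace Pool.Agent.KLR

variable {K I : Type} [Field K] [Fintype I] [DecidableEq I] {D : Datum K I}

namespace Tw

variable (f : KLRAlg D →ₐ[K] KLRAlg D) {M N P : Type} [AddCommGroup M] [Module K M]
  [Module (KLRAlg D) M] [AddCommGroup N] [Module K N] [Module (KLRAlg D) N]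
  [AddCommGroup P] [Module K P] [Module (KLRAlg D) P]

/-- functoriality of the twist -/
noncomputable def map (g : M →ₗ[KLRAlg D] N) : Tw f M →ₗ[KLRAlg D] Tw f N where
  toFun u := mk f (g ((mk f).symm u))
  map_add' u v := by rw [map_add, map_add, map_add]
  map_smul' a u := by
    obtain ⟨u, rfl⟩ := (mk f).surjective u
    rw [smul_mk, LinearEquiv.symm_apply_apply, LinearEquiv.symm_apply_apply, map_smul, ← smul_mk]
    rfl

@[simp] theorem map_mk (g : M →ₗ[KLRAlg D] N) (u : M) : map f g (mk f u) = mk f (g u) := rfl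

theorem map_injective {g : M →ₗ[KLRAlg D] N} (h : Function.Injective g) :
    Function.Injective (map f g) := h

theorem map_surjective {g : M →ₗ[KLRAlg D] N} (h : Function.Surjective g) :
    Function.Surjective (map f g) := h

end Tw

/-- the mirror of a module with `n` strands -/
abbrev Mir (D : Datum K I) (n : ℕ) (M : Type) : Type := Tw (D.mir n) M

namespace Mir

variable {n m : ℕ} {M N : Type} [AddCommGroup M] [Module K M]
  [Module (KLRAlg D) M] [IsScalarTower K (KLRAlg D) M]
  [AddCommGroup N] [Module K N] [Module (KLRAlg D) N] [IsScalarTower K (KLRAlg D) N]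

omit [IsScalarTower K (KLRAlg D) M] in
theorem isStrand (h : IsStrand D n M) : IsStrand D n (Mir D n M) where
  one k hk u := by
    obtain ⟨u, rfl⟩ := (Tw.mk (D.mir n)).surjective u
    rw [Tw.smul_mk, D.mir_E, if_pos hk, h.one _ (by omega)]
  zero k hk i u := by
    obtain ⟨u, rfl⟩ := (Tw.mk (D.mir n)).surjective u
    rw [Tw.smul_mk, D.mir_e, if_neg (by omega), zero_smul, map_zero]

omit [IsScalarTower K (KLRAlg D) M] in
theorem nilp (hn : Nilp D M) : Nilp D (Mir D n M) := by
  intro k
  obtain ⟨r, hr⟩ := hn (n - 1 - k)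
  refine ⟨r + 1, fun u => ?_⟩
  obtain ⟨u, rfl⟩ := (Tw.mk (D.mir n)).surjective u
  rw [Tw.smul_mk, map_pow, D.mir_x]
  split_ifs with hk
  · rw [pow_succ', mul_smul, hr, smul_zero, map_zero]
  · rw [zero_pow (Nat.succ_ne_zero r), zero_smul, map_zero]

omit [IsScalarTower K (KLRAlg D) M] in
theorem fdMod (h : FdMod D n M) : FdMod D n (Mir D n M) where
  strand := isStrand h.strand
  fd := by have := h.fd; infer_instance
  nilp := nilp h.nilp

/-- the mirror of the mirror is the module itself -/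
noncomputable def mirMir (h : IsStrand D n M) : M ≃ₗ[KLRAlg D] Mir D n (Mir D n M) where
  toFun u := Tw.mk (D.mir n) (Tw.mk (D.mir n) u)
  map_add' u v := rfl
  map_smul' a u := by
    rw [Tw.smul_mk, Tw.smul_mk, D.mir_mir, h.tr_smul le_rfl]
    rfl
  invFun u := (Tw.mk (D.mir n)).symm ((Tw.mk (D.mir n)).symm u)
  left_inv u := rfl
  right_inv u := rfl

/-- submodules of the mirror -/
noncomputable def subEquiv (h : IsStrand D n M) :
    Submodule (KLRAlg D) M ≃o Submodule (KLRAlg D) (Mir D n M) where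
  toFun S :=
    { carrier := {u | (Tw.mk (D.mir n)).symm u ∈ S}
      add_mem' := fun {u v} hu hv => S.add_mem hu hv
      zero_mem' := S.zero_mem
      smul_mem' := fun a u hu => S.smul_mem (D.mir n a) hu }
  invFun S :=
    { carrier := {u | Tw.mk (D.mir n) u ∈ S}
      add_mem' := fun {u v} hu hv => S.add_mem hu hv
      zero_mem' := S.zero_mem
      smul_mem' := fun a u hu => by
        have h1 : D.mir n a • Tw.mk (D.mir n) u ∈ S := S.smul_mem (D.mir n a) hu
        rw [Tw.smul_mk, D.mir_mir, h.tr_smul le_rfl] at h1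
        exact h1 }
  left_inv S := by ext; rfl
  right_inv S := by ext; rfl
  map_rel_iff' := Iff.rfl

omit [IsScalarTower K (KLRAlg D) M] in
theorem mem_subEquiv (h : IsStrand D n M) (S : Submodule (KLRAlg D) M) (u : M) :
    Tw.mk (D.mir n) u ∈ subEquiv h S ↔ u ∈ S := Iff.rfl

omit [IsScalarTower K (KLRAlg D) M] in
theorem isSimple (h : IsStrand D n M) (hs : IsSimpleModule (KLRAlg D) M) :
    IsSimpleModule (KLRAlg D) (Mir D n M) := by
  rw [isSimpleModule_iff] at hs ⊢
  exact (subEquiv h).isSimpleOrder_iff.1 hs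

omit [IsScalarTower K (KLRAlg D) M] in
theorem smp (h : Smp D n M) : Smp D n (Mir D n M) where
  strand := isStrand h.strand
  fd := by have := h.fd; infer_instance
  nilp := nilp h.nilp
  simple := isSimple h.strand h.simple

/-- the bilinear map of `convMir` -/
noncomputable def bil (D : Datum K I) (m n : ℕ) (M N : Type) [AddCommGroup M] [Module K M]
    [Module (KLRAlg D) M] [AddCommGroup N] [Module K N] [Module (KLRAlg D) N] :
    Mir D n N →ₗ[K] Mir D m M →ₗ[K] Mir D (m + n) (Conv D m M N) :=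
  LinearMap.mk₂ K (fun v u => Tw.mk (D.mir (m + n)) (Conv.mk D m M N
      ((Tw.mk (D.mir m)).symm u) ((Tw.mk (D.mir n)).symm v)))
    (by intro u u' v; rw [map_add, map_add, map_add])
    (by intro r u v; rw [map_smul, map_smul, map_smul])
    (by intro u v v'; rw [map_add, map_add, LinearMap.add_apply, map_add])
    (by intro r u v; rw [map_smul, map_smul, LinearMap.smul_apply, map_smul])

omit [IsScalarTower K (KLRAlg D) M] [IsScalarTower K (KLRAlg D) N] in
theorem bil_apply (u : M) (v : N) :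
    bil D m n M N (Tw.mk (D.mir n) v) (Tw.mk (D.mir m) u) =
      Tw.mk (D.mir (m + n)) (Conv.mk D m M N u v) := rfl

omit [IsScalarTower K (KLRAlg D) M] [IsScalarTower K (KLRAlg D) N] in
theorem balanced_bil : Balanced D n (bil D m n M N) where
  left a v u := by
    obtain ⟨u, rfl⟩ := (Tw.mk (D.mir m)).surjective u
    obtain ⟨v, rfl⟩ := (Tw.mk (D.mir n)).surjective v
    rw [bil_apply, Tw.smul_mk, D.mir_tr, Conv.shn_smul_mk, Tw.smul_mk, bil_apply]
  right a v u := by
    obtain ⟨u, rfl⟩ := (Tw.mk (D.mir m)).surjective u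
    obtain ⟨v, rfl⟩ := (Tw.mk (D.mir n)).surjective v
    rw [bil_apply, Tw.smul_mk, D.mir_shn, ← D.tr_mir, Conv.tr_smul_mk, Tw.smul_mk, bil_apply]

/-- `N^mir ∘ M^mir → (M ∘ N)^mir` -/
noncomputable def convMirHom (D : Datum K I) (m n : ℕ) (M N : Type) [AddCommGroup M] [Module K M]
    [Module (KLRAlg D) M] [IsScalarTower K (KLRAlg D) M] [AddCommGroup N] [Module K N]
    [Module (KLRAlg D) N] [IsScalarTower K (KLRAlg D) N] :
    Conv D n (Mir D n N) (Mir D m M) →ₗ[KLRAlg D] Mir D (m + n) (Conv D m M N) :=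
  Conv.lift (bil D m n M N) balanced_bil

theorem convMirHom_mk (u : M) (v : N) :
    convMirHom D m n M N (Conv.mk D n (Mir D n N) (Mir D m M) (Tw.mk (D.mir n) v)
      (Tw.mk (D.mir m) u)) = Tw.mk (D.mir (m + n)) (Conv.mk D m M N u v) := by
  unfold convMirHom
  rw [Conv.lift_mk, bil_apply]

/-- the inverse bilinear map -/
noncomputable def bil' (D : Datum K I) (m n : ℕ) (M N : Type) [AddCommGroup M] [Module K M]
    [Module (KLRAlg D) M] [AddCommGroup N] [Module K N] [Module (KLRAlg D) N] :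
    M →ₗ[K] N →ₗ[K] Mir D (m + n) (Conv D n (Mir D n N) (Mir D m M)) :=
  LinearMap.mk₂ K (fun u v => Tw.mk (D.mir (m + n)) (Conv.mk D n (Mir D n N) (Mir D m M)
      (Tw.mk (D.mir n) v) (Tw.mk (D.mir m) u)))
    (by intro u u' v; rw [map_add, map_add, map_add])
    (by intro r u v; rw [map_smul, map_smul, map_smul])
    (by intro u v v'; rw [map_add, map_add, LinearMap.add_apply, map_add])
    (by intro r u v; rw [map_smul, map_smul, LinearMap.smul_apply, map_smul])

omit [IsScalarTower K (KLRAlg D) M] [IsScalarTower K (KLRAlg D) N] in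
theorem balanced_bil' (hM : IsStrand D m M) (hN : IsStrand D n N) :
    Balanced D m (bil' D m n M N) where
  left a u v := by
    unfold bil'
    rw [LinearMap.mk₂_apply, LinearMap.mk₂_apply, Tw.smul_mk]
    have h1 : D.mir (m + n) (D.tr m a) = D.shn n (D.mir m a) := by
      rw [Nat.add_comm m n, D.mir_tr]
    rw [h1, Conv.shn_smul_mk, Tw.smul_mk, D.mir_mir, hM.tr_smul le_rfl]
  right a u v := by
    unfold bil'
    rw [LinearMap.mk₂_apply, LinearMap.mk₂_apply, Tw.smul_mk]
    have h1 : D.mir (m + n) (D.shn m a) = D.mir n a := by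
      rw [Nat.add_comm m n, D.mir_shn]
    rw [h1, ← D.tr_mir, Conv.tr_smul_mk, Tw.smul_mk, D.mir_mir, hN.tr_smul le_rfl]

/-- `M ∘ N → (N^mir ∘ M^mir)^mir` -/
noncomputable def convMirInv (hM : IsStrand D m M) (hN : IsStrand D n N) :
    Conv D m M N →ₗ[KLRAlg D] Mir D (m + n) (Conv D n (Mir D n N) (Mir D m M)) :=
  Conv.lift (bil' D m n M N) (balanced_bil' hM hN)

omit [IsScalarTower K (KLRAlg D) M] [IsScalarTower K (KLRAlg D) N] in
theorem convMirInv_mk (hM : IsStrand D m M) (hN : IsStrand D n N) (u : M) (v : N) :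
    convMirInv hM hN (Conv.mk D m M N u v) = Tw.mk (D.mir (m + n))
      (Conv.mk D n (Mir D n N) (Mir D m M) (Tw.mk (D.mir n) v) (Tw.mk (D.mir m) u)) := by
  unfold convMirInv
  rw [Conv.lift_mk]
  rfl

/-- `N^mir ∘ M^mir = (M ∘ N)^mir` -/
theorem convMirHom_bijective (hM : IsStrand D m M) (hN : IsStrand D n N) :
    Function.Bijective (convMirHom D m n M N) := by
  have hc : IsStrand D (m + n) (Conv D n (Mir D n N) (Mir D m M)) := by
    rw [Nat.add_comm]
    exact Conv.isStrand (isStrand hN) (isStrand hM)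
  have hc' : IsStrand D (m + n) (Conv D m M N) := Conv.isStrand hM hN
  have h1 : (Tw.map (D.mir (m + n)) (convMirHom D m n M N)).comp (convMirInv hM hN) =
      (mirMir hc').toLinearMap := by
    apply Conv.hom_ext
    intro u v
    rw [LinearMap.comp_apply, convMirInv_mk, Tw.map_mk, convMirHom_mk]
    rfl
  have h2 : (Tw.map (D.mir (m + n)) (convMirInv hM hN)).comp (convMirHom D m n M N) =
      (mirMir hc).toLinearMap := by
    apply Conv.hom_ext
    intro v u
    obtain ⟨u, rfl⟩ := (Tw.mk (D.mir m)).surjective u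
    obtain ⟨v, rfl⟩ := (Tw.mk (D.mir n)).surjective v
    rw [LinearMap.comp_apply, convMirHom_mk, Tw.map_mk, convMirInv_mk]
    rfl
  constructor
  · intro y z hyz
    have h3 := congrArg (Tw.map (D.mir (m + n)) (convMirInv hM hN)) hyz
    rw [← LinearMap.comp_apply, ← LinearMap.comp_apply, h2] at h3
    exact (mirMir hc).injective h3
  · intro z
    obtain ⟨z, rfl⟩ := (Tw.mk (D.mir (m + n))).surjective z
    refine ⟨(Tw.mk (D.mir (m + n))).symm (convMirInv hM hN z), ?_⟩
    exact LinearMap.congr_fun h1 z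

/-- `N^mir ∘ M^mir = (M ∘ N)^mir` -/
noncomputable def convMir (hM : IsStrand D m M) (hN : IsStrand D n N) :
    Conv D n (Mir D n N) (Mir D m M) ≃ₗ[KLRAlg D] Mir D (m + n) (Conv D m M N) :=
  LinearEquiv.ofBijective _ (convMirHom_bijective hM hN)

theorem convMir_mk (hM : IsStrand D m M) (hN : IsStrand D n N) (u : M) (v : N) :
    convMir hM hN (Conv.mk D n (Mir D n N) (Mir D m M) (Tw.mk (D.mir n) v)
      (Tw.mk (D.mir m) u)) = Tw.mk (D.mir (m + n)) (Conv.mk D m M N u v) := convMirHom_mk u v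

end Mir

end Pool.Agent.KLR
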